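import Mathlib
import Pool.Agent.Q276.Host
import Pool.Agent.Q276.Four
import Pool.Agent.H362SP.Many

set_option autoImplicit false

/-!
The tree-width threshold `f H` is not increased by one by subdividing an edge: if `H` is the
disjoint union of `c` triangles and `f H ≥ 3 c` (which holds for all large `c`), then `f H' = f H`
for the graph `H'` obtained by subdividing any edge of `H` once.
-/

namespace Pool.Agent.Results.MP_31fefb_co.TrianglesSubdivision

/-- `G` has a tree decomposition of width at most `w`: a tree `T` and bags covering all vertices and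
edges, such that the nodes whose bag contains a given vertex induce a connected subgraph of `T`, all
bags having at most `w + 1` vertices -/
def TwLE {V : Type} (G : SimpleGraph V) (w : ℕ) : Prop :=
  ∃ m : ℕ, ∃ T : SimpleGraph (Fin m), ∃ bag : Fin m → Set V,
    T.IsTree ∧ (∀ v, ∃ i, v ∈ bag i) ∧
    (∀ u v, G.Adj u v → ∃ i, u ∈ bag i ∧ v ∈ bag i) ∧
    (∀ v, (T.induce {i | v ∈ bag i}).Connected) ∧
    ∀ i, (bag i).ncard ≤ w + 1

/-- the treewidth of a finite graph -/
noncomputable def tw {V : Type} (G : SimpleGraph V) : ℕ := sInf {w | TwLE G w}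

/-- `H` is a minor of `G`: there are pairwise disjoint connected branch sets, one for each vertex of
`H`, with an edge of `G` between any two branch sets belonging to adjacent vertices of `H` -/
def IsMinor {W V : Type} (H : SimpleGraph W) (G : SimpleGraph V) : Prop :=
  ∃ B : W → Set V, (∀ x, (G.induce (B x)).Connected) ∧
    (∀ x y, x ≠ y → Disjoint (B x) (B y)) ∧
    ∀ x y, H.Adj x y → ∃ u ∈ B x, ∃ v ∈ B y, G.Adj u v

/-- a finite graph is planar if and only if it has neither `K_5` nor `K_{3,3}` as a minor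
(Wagner's theorem); here this is the definition of planarity -/
def Planar {W : Type} (H : SimpleGraph W) : Prop :=
  ¬ IsMinor (⊤ : SimpleGraph (Fin 5)) H ∧
    ¬ IsMinor (completeBipartiteGraph (Fin 3) (Fin 3)) H

/-- `f H`: the least integer `k` such that every finite graph `G` (with at least one vertex) of
treewidth at least `k` contains `H` as a minor (and `⊤` if there is no such integer) -/
noncomputable def f {W : Type} (H : SimpleGraph W) : ℕ∞ :=
  ⨅ (k : ℕ) (_ : ∀ (V : Type) [Fintype V] [Nonempty V] (G : SimpleGraph V),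
    k ≤ tw G → IsMinor H G), (k : ℕ∞)

/-- the graph obtained from `H` by subdividing the edge `u v` once; the new vertex is `none` -/
def subdivide {W : Type} (H : SimpleGraph W) (u v : W) : SimpleGraph (Option W) where
  Adj x y :=
    match x, y with
    | some a, some b => H.Adj a b ∧ s(a, b) ≠ s(u, v)
    | none, some a => a = u ∨ a = v
    | some a, none => a = u ∨ a = v
    | none, none => False
  symm := ⟨by
    rintro (_ | a) (_ | b) h
    · exact h
    · exact h
    · exact h
    · exact ⟨h.1.symm, fun h' => h.2 (Sym2.eq_swap.trans h')⟩⟩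
  loopless := ⟨by
    rintro (_ | a) h
    · exact h
    · exact H.loopless.irrefl a h.1⟩

/-- the disjoint union of `c` triangles -/
def triangles (c : ℕ) : SimpleGraph (Fin c × Fin 3) where
  Adj x y := x.1 = y.1 ∧ x.2 ≠ y.2
  symm := ⟨fun _ _ h => ⟨h.1.symm, h.2.symm⟩⟩
  loopless := ⟨fun _ h => h.2 rfl⟩

open Pool.Agent.W126.Split Pool.Agent.Q276.Tw Finset SimpleGraph

/-! ### Translation -/

lemma not_bw {V : Type} [Fintype V] [DecidableEq V] (G : SimpleGraph V) (w : ℕ) (hw : 1 ≤ w)
    (h : w ≤ tw G) : ¬ Bw G Finset.univ w := by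
  intro hb
  obtain ⟨m, T, bag, h1, h2, h3, h4, h5⟩ := td_of_bw hb
  have h6 : TwLE G (w - 1) := ⟨m, T, bag, h1, h2, h3, h4, fun i => (h5 i).trans (by omega)⟩
  have h7 : tw G ≤ w - 1 := Nat.sInf_le h6
  omega

lemma isMinor_of_mod {W V : Type} [Fintype V] [DecidableEq V] {H : SimpleGraph W}
    {G : SimpleGraph V} {S : Finset V} (h : Mod H G S) : IsMinor H G := by
  obtain ⟨B, h1, h2, h3, h4, h5⟩ := h
  refine ⟨fun x => (B x : Set V), ?_, ?_, ?_⟩
  · intro x
    have : Nonempty ((B x : Set V)) := by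
      obtain ⟨v, hv⟩ := h2 x
      exact ⟨⟨v, hv⟩⟩
    refine SimpleGraph.Connected.mk ?_
    rintro ⟨a, ha⟩ ⟨b, hb⟩
    obtain ⟨p, hp⟩ := h3 x a ha b hb
    have key : ∀ {a b : V} (p : G.Walk a b) (hp : ∀ z ∈ p.support, z ∈ B x)
        (ha : a ∈ (B x : Set V)) (hb : b ∈ (B x : Set V)),
        (G.induce (B x : Set V)).Reachable ⟨a, ha⟩ ⟨b, hb⟩ := by
      intro a b p
      induction p with
      | nil => intro _ _ _; exact Reachable.refl _
      | @cons a c b hadj p ih =>
        intro hp ha hb
        have hc : c ∈ (B x : Set V) := hp c (by simp)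
        have h1 : (G.induce (B x : Set V)).Adj ⟨a, ha⟩ ⟨c, hc⟩ := hadj
        exact h1.reachable.trans (ih (fun z hz => hp z (by simp [hz])) hc hb)
    exact key p hp _ _
  · intro x y hxy
    rw [Finset.disjoint_coe]
    exact h4 x y hxy
  · intro x y hxy
    obtain ⟨u, hu, v, hv, huv⟩ := h5 x y hxy
    exact ⟨u, hu, v, hv, huv⟩

lemma mod_of_isMinor {W V : Type} [Fintype V] [DecidableEq V] {H : SimpleGraph W}
    {G : SimpleGraph V} (h : IsMinor H G) : Mod H G Finset.univ := by
  classical
  obtain ⟨B, h1, h2, h3⟩ := h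
  refine ⟨fun x => univ.filter (fun v => v ∈ B x), fun x => subset_univ _, ?_, ?_, ?_, ?_⟩
  · intro x
    obtain ⟨⟨v, hv⟩⟩ := (h1 x).nonempty
    exact ⟨v, mem_filter.2 ⟨mem_univ _, hv⟩⟩
  · intro x u hu v hv
    rw [mem_filter] at hu hv
    obtain ⟨p⟩ := (h1 x).preconnected ⟨u, hu.2⟩ ⟨v, hv.2⟩
    obtain ⟨q, hq⟩ := Pool.Agent.W126.TAC.walk_of_induce p
    exact ⟨q, fun z hz => mem_filter.2 ⟨mem_univ _, hq z hz⟩⟩
  · intro x y hxy
    rw [Finset.disjoint_left]
    intro v hv hv'
    rw [mem_filter] at hv hv'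
    exact Set.disjoint_left.1 (h2 x y hxy) hv.2 hv'.2
  · intro x y hxy
    obtain ⟨u, hu, v, hv, huv⟩ := h3 x y hxy
    exact ⟨u, mem_filter.2 ⟨mem_univ _, hu⟩, v, mem_filter.2 ⟨mem_univ _, hv⟩, huv⟩

/-! ### Subdivided triangles -/

/-- a cycle with four vertices in one place and triangles elsewhere -/
lemma combine {V : Type} [Fintype V] [DecidableEq V] {G : SimpleGraph V} {c : ℕ}
    {u v : Fin c × Fin 3} (huv : (triangles c).Adj u v) {Z : Finset V} (hZ : Mod c4 G Z)
    (E : Fin c × Fin 3 → Finset V)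
    (e0 : ∀ x, x.1 ≠ u.1 → Disjoint (E x) Z)
    (e1 : ∀ x, x.1 ≠ u.1 → (E x).Nonempty) (e2 : ∀ x, x.1 ≠ u.1 → Conn G (E x))
    (e3 : ∀ x y, x.1 ≠ u.1 → y.1 ≠ u.1 → x ≠ y → Disjoint (E x) (E y))
    (e4 : ∀ x y, x.1 ≠ u.1 → x.1 = y.1 → x.2 ≠ y.2 → ∃ a ∈ E x, ∃ b ∈ E y, G.Adj a b) :
    Mod (subdivide (triangles c) u v) G univ := by
  obtain ⟨D, d1, d2, d3, d4, d5⟩ := hZ
  have huv' : u ≠ v := (triangles c).ne_of_adj huv
  obtain ⟨huv1, huv2⟩ := huv
  -- the position on the cycle
  let pos : Option (Fin c × Fin 3) → Fin 4 := fun x =>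
    match x with
    | none => 1
    | some x => if x = u then 0 else if x = v then 2 else 3
  let loc : Option (Fin c × Fin 3) → Prop := fun x =>
    match x with
    | none => True
    | some x => x.1 = u.1
  let F : Option (Fin c × Fin 3) → Finset V := fun x =>
    match x with
    | none => D 1
    | some x => if x.1 = u.1 then D (if x = u then 0 else if x = v then 2 else 3) else E x
  have hFloc : ∀ x, loc x → F x = D (pos x) := by
    rintro (_ | x) hx
    · rfl
    · change (if x.1 = u.1 then D (if x = u then 0 else if x = v then 2 else 3) else E x) =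
        D (if x = u then 0 else if x = v then 2 else 3)
      rw [if_pos hx]
  have hFE : ∀ x : Fin c × Fin 3, x.1 ≠ u.1 → F (some x) = E x := by
    intro x hx
    change (if x.1 = u.1 then D (if x = u then 0 else if x = v then 2 else 3) else E x) = E x
    rw [if_neg hx]
  have hposinj : ∀ x y, loc x → loc y → x ≠ y → pos x ≠ pos y := by
    have key : ∀ x : Fin c × Fin 3, (1 : Fin 4) ≠ (if x = u then 0 else if x = v then 2 else 3) := by
      intro x
      split_ifs <;> decide
    have third : ∀ x y : Fin c × Fin 3, x.1 = u.1 → y.1 = u.1 → x ≠ u → x ≠ v → y ≠ u →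
        y ≠ v → x = y := by
      rintro ⟨x1, x2⟩ ⟨y1, y2⟩ hx hy h1 h2 h3 h4
      obtain ⟨u1, u2⟩ := u
      obtain ⟨v1, v2⟩ := v
      simp only at huv1 huv2 hx hy
      subst hx hy huv1
      simp only [ne_eq, Prod.mk.injEq, true_and] at h1 h2 h3 h4 ⊢
      clear hFloc hFE e0 e1 e2 e3 e4 key
      revert huv2 h1 h2 h3 h4
      clear huv' pos loc F
      revert x2 y2 u2 v2
      decide
    rintro (_ | x) (_ | y) hx hy hxy
    · exact absurd rfl hxy
    · exact key y
    · exact (key x).symm
    · change (if x = u then (0 : Fin 4) else if x = v then 2 else 3) ≠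
        (if y = u then (0 : Fin 4) else if y = v then 2 else 3)
      by_cases h1 : x = u <;> by_cases h2 : y = u
      · exact absurd (by rw [h1, h2]) hxy
      · rw [if_pos h1, if_neg h2]
        split_ifs <;> decide
      · rw [if_neg h1, if_pos h2]
        split_ifs <;> decide
      · rw [if_neg h1, if_neg h2]
        by_cases h3 : x = v <;> by_cases h4 : y = v
        · exact absurd (by rw [h3, h4]) hxy
        · rw [if_pos h3, if_neg h4]; decide
        · rw [if_neg h3, if_pos h4]; decide
        · exact absurd (by rw [third x y hx hy h1 h3 h2 h4]) hxy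
  have hcase : ∀ x : Option (Fin c × Fin 3), loc x ∨ ∃ y : Fin c × Fin 3, y.1 ≠ u.1 ∧ x = some y := by
    rintro (_ | x)
    · exact Or.inl trivial
    · by_cases hx : x.1 = u.1
      · exact Or.inl hx
      · exact Or.inr ⟨x, hx, rfl⟩
  have hDE : ∀ (i : Fin 4) (x : Fin c × Fin 3), x.1 ≠ u.1 → Disjoint (D i) (E x) :=
    fun i x hx => ((e0 x hx).mono_right (d1 i)).symm
  refine ⟨F, fun x => subset_univ _, ?_, ?_, ?_, ?_⟩
  · intro x
    rcases hcase x with hx | ⟨y, hy, rfl⟩
    · rw [hFloc x hx]
      exact d2 _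
    · rw [hFE y hy]
      exact e1 y hy
  · intro x
    rcases hcase x with hx | ⟨y, hy, rfl⟩
    · rw [hFloc x hx]
      exact d3 _
    · rw [hFE y hy]
      exact e2 y hy
  · intro x y hxy
    rcases hcase x with hx | ⟨x', hx', rfl⟩ <;> rcases hcase y with hy | ⟨y', hy', rfl⟩
    · rw [hFloc x hx, hFloc y hy]
      exact d4 _ _ (hposinj x y hx hy hxy)
    · rw [hFloc x hx, hFE y' hy']
      exact hDE _ _ hy'
    · rw [hFloc y hy, hFE x' hx']
      exact (hDE _ _ hx').symm
    · rw [hFE x' hx', hFE y' hy']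
      exact e3 x' y' hx' hy' (fun h => hxy (by rw [h]))
  · -- the edges
    have hDadj : ∀ i j : Fin 4, (j = i + 1 ∨ i = j + 1) → ∃ a ∈ D i, ∃ b ∈ D j, G.Adj a b :=
      fun i j h => d5 i j h
    have hnone : ∀ x : Fin c × Fin 3, (x = u ∨ x = v) →
        ∃ a ∈ F none, ∃ b ∈ F (some x), G.Adj a b := by
      intro x hx
      have hx1 : x.1 = u.1 := by
        rcases hx with rfl | rfl
        · rfl
        · exact huv1.symm
      rw [hFloc none trivial, hFloc (some x) hx1]
      apply hDadj
      change (if x = u then (0 : Fin 4) else if x = v then 2 else 3) = 1 + 1 ∨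
        1 = (if x = u then (0 : Fin 4) else if x = v then 2 else 3) + 1
      rcases hx with rfl | rfl
      · rw [if_pos rfl]; decide
      · rw [if_neg huv'.symm, if_pos rfl]; decide
    rintro (_ | x) (_ | y) hxy
    · exact hxy.elim
    · exact hnone y hxy
    · obtain ⟨a, ha, b, hb, hab⟩ := hnone x hxy
      exact ⟨b, hb, a, ha, hab.symm⟩
    · obtain ⟨⟨hxy1, hxy2⟩, hne⟩ := hxy
      by_cases hx : x.1 = u.1
      · have hy : y.1 = u.1 := hxy1.symm.trans hx
        rw [hFloc (some x) hx, hFloc (some y) hy]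
        apply hDadj
        have hxyne : x ≠ y := fun h => hxy2 (by rw [h])
        change (if y = u then (0 : Fin 4) else if y = v then 2 else 3) =
            (if x = u then (0 : Fin 4) else if x = v then 2 else 3) + 1 ∨
          (if x = u then (0 : Fin 4) else if x = v then 2 else 3) =
            (if y = u then (0 : Fin 4) else if y = v then 2 else 3) + 1
        by_cases h1 : x = u
        · have h2 : y ≠ u := fun h => hxyne (h1.trans h.symm)
          have h3 : y ≠ v := fun h => hne (by rw [h1, h])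
          rw [if_pos h1, if_neg h2, if_neg h3]; decide
        · by_cases h2 : x = v
          · have h3 : y ≠ u := fun h => hne (by rw [h2, h, Sym2.eq_swap])
            have h4 : y ≠ v := fun h => hxyne (h2.trans h.symm)
            rw [if_neg h1, if_pos h2, if_neg h3, if_neg h4]; decide
          · rw [if_neg h1, if_neg h2]
            by_cases h3 : y = u
            · rw [if_pos h3]; decide
            · by_cases h4 : y = v
              · rw [if_neg h3, if_pos h4]; decide
              · exfalso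
                have := hposinj (some x) (some y) hx hy (fun h => hxyne (Option.some.inj h))
                apply this
                change (if x = u then (0 : Fin 4) else if x = v then 2 else 3) =
                  (if y = u then (0 : Fin 4) else if y = v then 2 else 3)
                rw [if_neg h1, if_neg h2, if_neg h3, if_neg h4]
      · have hy : y.1 ≠ u.1 := fun h => hx (hxy1.trans h)
        rw [hFE x hx, hFE y hy]
        exact e4 x y hx hxy1 hxy2

/-- the main step -/
theorem step {V : Type} [Fintype V] [DecidableEq V] {G : SimpleGraph V} {c k : ℕ}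
    (hk : 3 * c ≤ k) (hb : ¬ Bw G univ k) (hM : Mod (triangles c) G univ)
    {u v : Fin c × Fin 3} (huv : (triangles c).Adj u v) :
    Mod (subdivide (triangles c) u v) G univ := by
  obtain ⟨B, b1, b2, b3, b4, b5⟩ := hM
  have hcase := fun j : Fin c => tri_or_c4 (G := G) (fun i => B (j, i)) (fun i => b3 _)
    (fun i i' h => b4 _ _ (fun h' => h (congrArg Prod.snd h')))
    (fun i i' h => b5 (j, i) (j, i') ⟨rfl, h⟩)
  by_cases hall : ∀ j, ∃ τ : Fin 3 → V, (∀ i, τ i ∈ B (j, i)) ∧
      ∀ i i', i ≠ i' → G.Adj (τ i) (τ i')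
  · -- all are triangles
    choose τ hτ1 hτ2 using hall
    set X : Finset V := (univ.filter (fun x : Fin c × Fin 3 => x.1 ≠ u.1)).image
      (fun x => τ x.1 x.2) with hX
    have hXc : X.card + 3 ≤ 3 * c := by
      refine le_trans (Nat.add_le_add_right card_image_le 3) ?_
      have e1 : (univ.filter (fun x : Fin c × Fin 3 => x.1 ≠ u.1)) =
          (univ.filter (fun i : Fin c => i ≠ u.1)) ×ˢ (univ : Finset (Fin 3)) := by
        ext x
        simp
      rw [e1, card_product, card_univ, Fintype.card_fin]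
      have e2 : (univ.filter (fun i : Fin c => i ≠ u.1)) = univ.erase u.1 := by
        ext i
        simp
      rw [e2, card_erase_of_mem (mem_univ _), card_univ, Fintype.card_fin]
      have : 0 < c := u.1.pos
      omega
    have hb' : ¬ Bw G (Xᶜ) 3 := by
      intro h
      have h1 := h.add X
      have h2 : (Xᶜ : Finset V) ∪ X = univ := by
        rw [union_comm]
        exact union_compl X
      rw [h2] at h1
      exact hb (h1.mono Subset.rfl (by omega))
    have hC := c4_of_bw le_rfl hb'
    refine combine huv hC (fun x => {τ x.1 x.2}) ?_ ?_ ?_ ?_ ?_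
    · intro x hx
      rw [disjoint_singleton_left, mem_compl, not_not, hX, mem_image]
      exact ⟨x, mem_filter.2 ⟨mem_univ _, hx⟩, rfl⟩
    · intro x _
      exact singleton_nonempty _
    · intro x _
      exact conn_singleton _
    · intro x y _ _ hxy
      rw [disjoint_singleton]
      intro h
      have h1 := hτ1 x.1 x.2
      have h2 := hτ1 y.1 y.2
      rw [h] at h1
      exact Finset.disjoint_left.1 (b4 x y hxy) h1 h2
    · intro x y _ hxy1 hxy2
      refine ⟨_, mem_singleton_self _, _, mem_singleton_self _, ?_⟩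
      rw [← hxy1]
      exact hτ2 x.1 x.2 y.2 hxy2
  · push Not at hall
    obtain ⟨j, hj⟩ := hall
    have hC : Mod c4 G (univ.biUnion (fun i => B (j, i))) := by
      rcases hcase j with ⟨τ, h1, h2⟩ | h
      · obtain ⟨i, i', h3, h4⟩ := hj τ h1
        exact absurd (h2 i i' h3) h4
      · exact h
    have hdis : ∀ x : Fin c × Fin 3, x.1 ≠ j →
        Disjoint (B x) (univ.biUnion (fun i => B (j, i))) := by
      intro x hx
      rw [Finset.disjoint_left]
      intro z hz hz'
      rw [mem_biUnion] at hz'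
      obtain ⟨i, -, hi⟩ := hz'
      exact Finset.disjoint_left.1 (b4 x (j, i) (fun h => hx (congrArg Prod.fst h))) hz hi
    let g : Fin c × Fin 3 → Fin c × Fin 3 := fun x => if x.1 = j then (u.1, x.2) else x
    have hg1 : ∀ x, x.1 ≠ u.1 → (g x).1 ≠ j := by
      intro x hx
      change (if x.1 = j then (u.1, x.2) else x).1 ≠ j
      split_ifs with h
      · exact fun h' => hx (h.trans h'.symm)
      · exact h
    have hg2 : ∀ x y, x.1 ≠ u.1 → y.1 ≠ u.1 → x ≠ y → g x ≠ g y := by
      rintro ⟨x1, x2⟩ ⟨y1, y2⟩ hx hy hxy h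
      apply hxy
      simp only at hx hy
      simp only [g] at h
      split_ifs at h with h1 h2 h2
      · rw [Prod.mk.injEq] at h
        rw [h1, h2, h.2]
      · rw [Prod.mk.injEq] at h
        exact absurd h.1.symm hy
      · rw [Prod.mk.injEq] at h
        exact absurd h.1 hx
      · exact h
    have hg3 : ∀ x y : Fin c × Fin 3, x.1 = y.1 → x.2 ≠ y.2 → (triangles c).Adj (g x) (g y) := by
      intro x y h1 h2
      change (if x.1 = j then (u.1, x.2) else x).1 = (if y.1 = j then (u.1, y.2) else y).1 ∧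
        (if x.1 = j then (u.1, x.2) else x).2 ≠ (if y.1 = j then (u.1, y.2) else y).2
      rw [← h1]
      split_ifs
      · exact ⟨rfl, h2⟩
      · exact ⟨h1, h2⟩
    exact combine huv hC (fun x => B (g x)) (fun x hx => hdis _ (hg1 x hx)) (fun x _ => b2 _)
      (fun x _ => b3 _) (fun x y hx hy hxy => b4 _ _ (hg2 x y hx hy hxy))
      (fun x y _ h1 h2 => b5 _ _ (hg3 x y h1 h2))

/-- the original graph is a minor of the subdivided one -/
lemma of_subdivide {W V : Type} [Fintype V] [DecidableEq V] {H : SimpleGraph W}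
    {G : SimpleGraph V} {u v : W} (huv : H.Adj u v) (h : Mod (subdivide H u v) G univ) :
    Mod H G univ := by
  classical
  obtain ⟨B, b1, b2, b3, b4, b5⟩ := h
  have hune : u ≠ v := H.ne_of_adj huv
  obtain ⟨p, hp, q, hq, hpq⟩ := b5 none (some u) (Or.inl rfl)
  obtain ⟨r, hr, t, ht, hrt⟩ := b5 none (some v) (Or.inr rfl)
  refine ⟨fun x => if x = u then B (some u) ∪ B none else B (some x), fun x => subset_univ _,
    ?_, ?_, ?_, ?_⟩
  · intro x
    dsimp only
    split_ifs
    · exact ⟨p, mem_union_right _ hp⟩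
    · exact b2 _
  · intro x
    dsimp only
    split_ifs
    · exact conn_union (b3 _) (b3 _) hq hp hpq.symm
    · exact b3 _
  · intro x y hxy
    have key : ∀ x, x ≠ u → Disjoint (B (some u) ∪ B none) (B (some x)) := by
      intro x hx
      rw [disjoint_union_left]
      exact ⟨b4 _ _ (fun h => hx (Option.some.inj h).symm), b4 _ _ (by simp)⟩
    dsimp only
    split_ifs with h1 h2 h2
    · exact absurd (h1.trans h2.symm) hxy
    · exact key y h2
    · exact (key x h1).symm
    · exact b4 _ _ (fun h => hxy (Option.some.inj h))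
  · intro x y hxy
    have hmem : ∀ z w, w ∈ B (some z) → w ∈ (if z = u then B (some u) ∪ B none else B (some z)) := by
      intro z w hw
      split_ifs with h
      · rw [h] at hw
        exact mem_union_left _ hw
      · exact hw
    by_cases he : s(x, y) = s(u, v)
    · rw [Sym2.eq_iff] at he
      rcases he with ⟨rfl, rfl⟩ | ⟨rfl, rfl⟩
      · refine ⟨r, ?_, t, hmem _ _ ht, hrt⟩
        dsimp only
        rw [if_pos rfl]
        exact mem_union_right _ hr
      · refine ⟨t, hmem _ _ ht, r, ?_, hrt.symm⟩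
        dsimp only
        rw [if_pos rfl]
        exact mem_union_right _ hr
    · obtain ⟨a, ha, b, hb, hab⟩ := b5 (some x) (some y) ⟨hxy, he⟩
      exact ⟨a, hmem _ _ ha, b, hmem _ _ hb, hab⟩

/-! ### The function `f` -/

lemma f_le {W : Type} {H : SimpleGraph W} {k : ℕ} (h : ∀ (V : Type) [Fintype V] [Nonempty V]
    (G : SimpleGraph V), k ≤ tw G → IsMinor H G) : f H ≤ k :=
  iInf_le_of_le k (iInf_le_of_le h le_rfl)

lemma le_f {W : Type} {H : SimpleGraph W} {a : ℕ∞} (h : ∀ k : ℕ, (∀ (V : Type) [Fintype V]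
    [Nonempty V] (G : SimpleGraph V), k ≤ tw G → IsMinor H G) → a ≤ k) : a ≤ f H :=
  le_iInf fun k => le_iInf fun hk => h k hk

/-- if `f (c K_3) ≥ 3 c` then subdividing an edge does not change `f` -/
theorem f_subdivide (c : ℕ) (hc : ((3 * c : ℕ) : ℕ∞) ≤ f (triangles c)) (u v : Fin c × Fin 3)
    (huv : (triangles c).Adj u v) : f (subdivide (triangles c) u v) = f (triangles c) := by
  classical
  apply le_antisymm
  · refine le_f fun k hk => ?_
    have h1 : 3 * c ≤ k := by
      have := hc.trans (f_le hk)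
      exact_mod_cast this
    have hc0 : 1 ≤ c := u.1.pos
    refine f_le fun V _ _ G hG => ?_
    exact isMinor_of_mod (step h1 (not_bw G k (by omega) hG) (mod_of_isMinor (hk V G hG)) huv)
  · refine le_f fun k hk => f_le fun V _ _ G hG => ?_
    exact isMinor_of_mod (of_subdivide huv (mod_of_isMinor (hk V G hG)))

lemma tw_pos_nonempty {V : Type} [Fintype V] {G : SimpleGraph V} (h : 0 < tw G) :
    Nonempty V := by
  classical
  by_contra hne
  rw [not_nonempty_iff] at hne
  obtain ⟨m, T, bag, h1, h2, h3, h4, h5⟩ := td_of_bw (bw_card (G := G) univ)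
  have h6 : TwLE G 0 := ⟨m, T, bag, h1, h2, h3, h4, fun i => (h5 i).trans (by simp)⟩
  have h7 : tw G ≤ 0 := Nat.sInf_le h6
  omega

/-- the lower bound -/
theorem le_f_triangles (c : ℕ) (hc : 33 * 119 ^ 16 ≤ c) :
    ((3 * c : ℕ) : ℕ∞) ≤ f (triangles c) := by
  have hc1 : 1 ≤ c := le_trans (by norm_num) hc
  obtain ⟨V, inst, G, h1, h2⟩ := Pool.Agent.Q276.Host.host (s := c) (t := 16) hc1 (by norm_num)
  have h2' : c * 16 ≤ 4 * (tw G + 2 * 16 * 119 ^ 16) + 7 := h2
  have h1' : ¬ IsMinor (triangles c) G := h1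
  have h3 : 3 * c ≤ tw G := by omega
  have hne : Nonempty V := tw_pos_nonempty (G := G) (by omega)
  refine le_f fun k hk => ?_
  by_contra hlt
  push Not at hlt
  have h4 : k < 3 * c := by exact_mod_cast hlt
  exact h1' (hk V G (by omega))

/-- finiteness -/
theorem f_triangles_lt_top (c : ℕ) : f (triangles c) < ⊤ := by
  classical
  refine lt_of_le_of_lt (b := ((114 ^ Nat.clog 2 (Fintype.card (Fin c)) * 3 : ℕ) : ℕ∞)) ?_
    (WithTop.coe_lt_top _)
  refine f_le fun V _ _ G hG => ?_
  have hb := not_bw G _ (Nat.one_le_iff_ne_zero.2 (by positivity)) hG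
  obtain ⟨S, h1, h2, h3⟩ := Pool.Agent.H362SP.split_many (ι := Fin c)
    (Nat.clog 2 (Fintype.card (Fin c))) (Nat.le_pow_clog (by norm_num) _) (by norm_num) le_rfl hb
  have h4 := fun i => c4_of_bw le_rfl (h3 i)
  choose D d1 d2 d3 d4 d5 using h4
  refine isMinor_of_mod (S := univ) ⟨fun x => if x.2 = 0 then D x.1 0 ∪ D x.1 1 else
    if x.2 = 1 then D x.1 2 else D x.1 3, fun x => subset_univ _, ?_, ?_, ?_, ?_⟩
  · intro x
    dsimp only
    split_ifs
    · exact (d2 x.1 0).mono subset_union_left
    · exact d2 _ _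
    · exact d2 _ _
  · intro x
    dsimp only
    split_ifs
    · obtain ⟨a, ha, b, hb, hab⟩ := d5 x.1 0 1 (Or.inl rfl)
      exact conn_union (d3 _ _) (d3 _ _) ha hb hab
    · exact d3 _ _
    · exact d3 _ _
  · intro x y hxy
    by_cases h : x.1 = y.1
    · have h5 : x.2 ≠ y.2 := fun h' => hxy (Prod.ext h h')
      have k0 := fun i j hij => d4 x.1 i j hij
      dsimp only
      rw [← h]
      split_ifs with h6 h7 h8 h9 h10 h11
      · exact absurd (h6.trans h7.symm) h5
      · exact disjoint_union_left.2 ⟨k0 _ _ (by decide), k0 _ _ (by decide)⟩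
      · exact disjoint_union_left.2 ⟨k0 _ _ (by decide), k0 _ _ (by decide)⟩
      · exact disjoint_union_right.2 ⟨k0 _ _ (by decide), k0 _ _ (by decide)⟩
      · exact absurd (h9.trans h11.symm) h5
      · exact k0 _ _ (by decide)
      · exact disjoint_union_right.2 ⟨k0 _ _ (by decide), k0 _ _ (by decide)⟩
      · exact k0 _ _ (by decide)
      · exfalso
        apply h5
        have : ∀ a b : Fin 3, a ≠ 0 → a ≠ 1 → b ≠ 0 → b ≠ 1 → a = b := by decide
        exact this _ _ (by assumption) (by assumption) (by assumption) (by assumption)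
    · have hsub : ∀ x : Fin c × Fin 3, (if x.2 = 0 then D x.1 0 ∪ D x.1 1 else
          if x.2 = 1 then D x.1 2 else D x.1 3) ⊆ S x.1 := by
        intro x
        split_ifs
        · exact union_subset (d1 _ _) (d1 _ _)
        · exact d1 _ _
        · exact d1 _ _
      exact (h2 _ _ h).mono (hsub x) (hsub y)
  · rintro ⟨i, a⟩ ⟨j, b⟩ ⟨h5, h6⟩
    simp only at h5 h6
    subst h5
    have k1 := d5 i 1 2 (Or.inl rfl)
    have k2 := d5 i 2 3 (Or.inl rfl)
    have k3 := d5 i 0 3 (Or.inr rfl)
    have swap : ∀ {A B : Finset V}, (∃ u ∈ A, ∃ v ∈ B, G.Adj u v) → ∃ u ∈ B, ∃ v ∈ A, G.Adj u v :=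
      fun ⟨u, hu, v, hv, huv⟩ => ⟨v, hv, u, hu, huv.symm⟩
    have k1' : ∃ u ∈ D i 0 ∪ D i 1, ∃ v ∈ D i 2, G.Adj u v := by
      obtain ⟨u, hu, v, hv, huv⟩ := k1
      exact ⟨u, mem_union_right _ hu, v, hv, huv⟩
    have k3' : ∃ u ∈ D i 0 ∪ D i 1, ∃ v ∈ D i 3, G.Adj u v := by
      obtain ⟨u, hu, v, hv, huv⟩ := k3
      exact ⟨u, mem_union_left _ hu, v, hv, huv⟩
    fin_cases a <;> fin_cases b <;> first | exact absurd rfl h6 | skip
    · exact k1'
    · exact k3'
    · exact swap k1'
    · exact k2
    · exact swap k3'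
    · exact swap k2

/-! ### Planarity -/

lemma fst_eq {c : ℕ} {B : Set (Fin c × Fin 3)} (hB : ((triangles c).induce B).Connected)
    {x y : Fin c × Fin 3} (hx : x ∈ B) (hy : y ∈ B) : x.1 = y.1 := by
  obtain ⟨p⟩ := hB.preconnected ⟨x, hx⟩ ⟨y, hy⟩
  have key : ∀ {a b : B} (_ : ((triangles c).induce B).Walk a b), a.1.1 = b.1.1 := by
    intro a b p
    induction p with
    | nil => rfl
    | cons h p ih => exact h.1.trans ih
  exact key p

lemma no_minor {c : ℕ} {W : Type} [Fintype W] {H : SimpleGraph W} (hH : H.Connected)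
    (hc : 3 < Fintype.card W) : ¬ IsMinor H (triangles c) := by
  rintro ⟨B, h1, h2, h3⟩
  have hne : ∀ x, ∃ v, v ∈ B x := fun x => by
    obtain ⟨⟨v, hv⟩⟩ := (h1 x).nonempty
    exact ⟨v, hv⟩
  choose g hg using hne
  have hfst : ∀ {a b : W} (_ : H.Walk a b), (g a).1 = (g b).1 := by
    intro a b p
    induction p with
    | nil => rfl
    | @cons a c b h p ih =>
      obtain ⟨u, hu, v, hv, huv⟩ := h3 a c h
      exact ((fst_eq (h1 a) (hg a) hu).trans (huv.1.trans (fst_eq (h1 c) hv (hg c)))).trans ih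
  have hinj : Function.Injective (fun x => (g x).2) := by
    intro a b hab
    by_contra hne
    obtain ⟨p⟩ := hH.preconnected a b
    have h4 : g a = g b := Prod.ext (hfst p) hab
    have h5 := hg a
    rw [h4] at h5
    exact Set.disjoint_left.1 (h2 a b hne) h5 (hg b)
  have := Fintype.card_le_of_injective _ hinj
  rw [Fintype.card_fin] at this
  omega

theorem planar_triangles (c : ℕ) : Planar (triangles c) := by
  constructor
  · exact no_minor (by
      have : Nonempty (Fin 5) := ⟨0⟩
      exact SimpleGraph.connected_top) (by simp)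
  · refine no_minor ?_ (by simp)
    have : Nonempty (Fin 3 ⊕ Fin 3) := ⟨Sum.inl 0⟩
    refine SimpleGraph.Connected.mk ?_
    have key : ∀ x : Fin 3 ⊕ Fin 3, (completeBipartiteGraph (Fin 3) (Fin 3)).Reachable x
        (Sum.inl 0) := by
      have h0 : ∀ j : Fin 3, (completeBipartiteGraph (Fin 3) (Fin 3)).Adj (Sum.inr j)
          (Sum.inl 0) := fun j => by simp
      rintro (i | j)
      · have h1 : (completeBipartiteGraph (Fin 3) (Fin 3)).Adj (Sum.inl i) (Sum.inr 0) := by simp
        exact h1.reachable.trans (h0 0).reachable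
      · exact (h0 j).reachable
    intro x y
    exact (key x).trans (key y).symm

/-- **Q1 is false.** Let `c K_3` be the disjoint union of `c` triangles (a planar graph).
(1) If `f (c K_3) ≥ 3 c`, then `f H' = f (c K_3)` for the graph `H'` obtained by subdividing any
edge of `c K_3` once. (2) For all `c ≥ 33 * 119 ^ 16` one has `3 c ≤ f (c K_3) < ∞`.
(3) Hence `f H' = f (c K_3) < ∞` for all these `c`, and `f H' = f H + 1` fails. -/
theorem result :
    (∀ c : ℕ, Planar (triangles c) ∧ f (triangles c) < ⊤) ∧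
    (∀ c : ℕ, ((3 * c : ℕ) : ℕ∞) ≤ f (triangles c) → ∀ u v, (triangles c).Adj u v →
      f (subdivide (triangles c) u v) = f (triangles c)) ∧
    (∀ c : ℕ, 33 * 119 ^ 16 ≤ c → ((3 * c : ℕ) : ℕ∞) ≤ f (triangles c) ∧
      ∀ u v, (triangles c).Adj u v →
        f (subdivide (triangles c) u v) = f (triangles c) ∧
        f (subdivide (triangles c) u v) ≠ f (triangles c) + 1) ∧
    ¬ ∀ (W : Type) [Fintype W] (H : SimpleGraph W), Planar H → ∀ u v, H.Adj u v →
      f (subdivide H u v) = f H + 1 := by
  have hne : ∀ a : ℕ∞, a < ⊤ → a ≠ a + 1 := by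
    intro a ha h
    lift a to ℕ using ha.ne
    have : a = a + 1 := by exact_mod_cast h
    omega
  have hmain : ∀ c : ℕ, 33 * 119 ^ 16 ≤ c → ((3 * c : ℕ) : ℕ∞) ≤ f (triangles c) ∧
      ∀ u v, (triangles c).Adj u v →
        f (subdivide (triangles c) u v) = f (triangles c) ∧
        f (subdivide (triangles c) u v) ≠ f (triangles c) + 1 := by
    intro c hc
    have h1 := le_f_triangles c hc
    refine ⟨h1, fun u v huv => ?_⟩
    have h2 := f_subdivide c h1 u v huv
    refine ⟨h2, ?_⟩
    rw [h2]
    exact hne _ (f_triangles_lt_top c)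
  refine ⟨fun c => ⟨planar_triangles c, f_triangles_lt_top c⟩, f_subdivide, hmain, ?_⟩
  intro hQ
  have hpos : 0 < 33 * 119 ^ 16 := by norm_num
  have huv : (triangles (33 * 119 ^ 16)).Adj (⟨0, hpos⟩, 0) (⟨0, hpos⟩, 1) :=
    ⟨rfl, (by decide : (0 : Fin 3) ≠ 1)⟩
  exact ((hmain (33 * 119 ^ 16) le_rfl).2 _ _ huv).2
    (hQ _ (triangles (33 * 119 ^ 16)) (planar_triangles _) _ _ huv)

end Pool.Agent.Results.MP_31fefb_co.TrianglesSubdivision
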